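import Pool.Agent.ASD.Stmts3
import Pool.Agent.Helper33_ASO.NSV
import Pool.Agent.Helper81_ASO.ISO
import Pool.Agent.AT3.Asm

/-!
# Row NSD: the values of the central characters in the local blocks with `Rw E₀ W`
-/

open scoped BigOperators

noncomputable section

namespace Pool.Agent.PP.SD.H7

open Pool.Agent.Helper51_AWC Pool.Agent.Helper79_WRA Pool.Agent.PP Pool.Agent.PP.KF
open Pool.Agent.PP.K9 Pool.Agent.PP.K9.H97 Pool.Agent.PP.H75 Pool.Agent.PP.T3 Pool.Agent.PP.SO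
open Pool.Agent.PP.SO.H33

attribute [local instance] Ideal.Quotient.field

section tr

variable {ℓ : ℕ} [hℓ : Fact ℓ.Prime] {M : Ideal (integralClosure ℤ ℂ)} [M.IsMaximal]
  {V₀ G : Type} [CommGroup V₀] [Group G] {E₀ : Subgroup (MulAut V₀)} (B : Bk (FF M) V₀ G)
  [Finite G] [Finite V₀]

omit [Finite V₀] in
theorem rw_top {W : Subgroup V₀} (hW : Rw E₀ W) : Rw E₀ ⊤ :=
  ⟨fun h => hW.1 (eq_bot_iff.2 (h ▸ le_top)),
    fun _ _ h => MulEquiv.ext fun v => h v (Subgroup.mem_top v)⟩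

/-- the data of the local block -/
theorem hd_ofD (hM : (ℓ : integralClosure ℤ ℂ) ∈ M) (hFr : Fq ℓ V₀ E₀)
    (hLbg : LbdStmt) (hB : Sd ℓ M E₀ B) {W : Subgroup V₀} (hRw : Rw E₀ W) :
    HD ℓ M W (jW B W) (fun t : B.C W => B.b W t) (fun t : B.C W => B.g t) (B.D W) (B.D ⊤)
      (B.S W) ∧ ((B.U W : ℚ) : ℂ) = B.S W * Nat.card (B.C W) * B.D ⊤ /
        (Nat.card (Subgroup.centralizer ((jW B W).range : Set (B.C W))) * B.D W) := by
  have hW : W ≠ ⊥ := hRw.1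
  have hVX := i_le_C B W
  have hCX := C_top_le B W
  obtain ⟨l1, _, l3⟩ := hLbg ℓ M hM V₀ G E₀ hFr B hB.toSb W
  have l2 := l3 hRw
  have hcardC : Nat.card (Subgroup.centralizer ((jW B W).range : Set (B.C W))) =
      Nat.card (B.C ⊤) := by
    rw [C_top, jW_range]
    exact Nat.card_congr (H85.cequiv hVX hCX).toEquiv
  have hU : ((B.U W : ℚ) : ℂ) = B.S W * Nat.card (B.C W) * B.D ⊤ /
        (Nat.card (Subgroup.centralizer ((jW B W).range : Set (B.C W))) * B.D W) := by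
    rw [hcardC]
    unfold Bk.U
    push_cast
    ring
  have htop : Rw E₀ (⊤ : Subgroup V₀) := rw_top hRw
  have hdc : Dg M (fun t : Subgroup.centralizer ((jW B W).range : Set (B.C W)) =>
      B.g ((t : B.C W) : G)) (B.D ⊤) := by
    have h1 := hB.dg ⊤ htop
    rw [b_top B hB.toSb] at h1
    have h2 : Dg M (fun t : Subgroup.centralizer (B.i.range : Set G) => B.g t) (B.D ⊤) := by
      have h3 : ∀ X : Subgroup G, X = Subgroup.centralizer (B.i.range : Set G) →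
          Dg M (fun t : X => B.g t) (B.D ⊤) →
          Dg M (fun t : Subgroup.centralizer (B.i.range : Set G) => B.g t) (B.D ⊤) := by
        rintro X rfl h
        exact h
      exact h3 _ (C_top B) h1
    have h4 := H85.dg_equiv (H85.cequiv hVX hCX).symm hB.ld.gam.blk.1.1 h2
    rw [jW_range]
    exact h4
  obtain ⟨q, hq, hUq⟩ := hB.un W hRw
  obtain ⟨u1, u2⟩ := unit_RM hM hq hUq
  rw [hU] at u1 u2
  refine ⟨{ ex := hFr.ex, cd := hFr.cd, nb := hW, inj := ?_, cen := fun w hw => jW_cen B W hw,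
            ld := ?_, ix1 := ?_, dd := hB.dg W hRw, dc := hdc, sg := hB.sg W hRw,
            un := u1, un1 := u2 }, hU⟩
  · intro v w h
    exact hB.inj (congrArg Subtype.val h)
  · rw [jW_range]
    exact l1
  · rw [jW_range]
    exact l2

end tr

/-- NSD, from the library -/
theorem nsd_of (hNil : NilStmt) (hInr : InrStmt) (hRsv : RsvStmt) (hSmg : SmgStmt)
    (hLbg : LbdStmt) (hIso : SO.IsoStmt) : NsdStmt := by
  classical
  intro ℓ _ M _ hM h2 V₀ G _ _ _ _ E₀ hFr B hB W hRw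
  have hW : W ≠ ⊥ := hRw.1
  have := Fintype.ofFinite G
  have := Fintype.ofFinite V₀
  have := Fintype.ofFinite (B.C W)
  obtain ⟨hd, hU⟩ := hd_ofD B hM hFr hLbg hB hRw
  obtain ⟨μ, m1, m2, m3, m4, m5, m6, m7⟩ :=
    hd.main hM h2 hNil hInr hRsv hIso hSmg hU
  -- notation
  have hux : ∀ x, ((ux B.U W x : ℚ) : ℂ) = UX W ((B.U W : ℚ) : ℂ) x := by
    intro x
    unfold ux UX
    split_ifs
    · exact Rat.cast_one
    · rfl
  have hU0 : ((B.U W : ℚ) : ℂ) ≠ 0 := by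
    have h3 := (unit_RM hM (hB.un W hRw).choose_spec.1 (hB.un W hRw).choose_spec.2).2
    intro h0
    rw [h0, rr_zero] at h3
    exact zero_ne_one h3
  have hux0 : ∀ x, ((ux B.U W x : ℚ) : ℂ) ≠ 0 := by
    intro x
    rw [hux]
    unfold UX
    split_ifs
    · exact one_ne_zero
    · exact hU0
  have hcv : ∀ χ : G → ℂ, (∀ x, x ∉ B.C W → χ x = 0) → ∀ x, SO.cv (fc B W x) χ =
      (∑ t : B.C W, FX M W (jW B W) (fun t : B.C W => B.b W t) (fun t : B.C W => B.g t) x t *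
        χ t) / χ 1 := by
    intro χ hχ x
    unfold SO.cv
    rw [sum_supp B W hχ]
    simp_rw [fc_eq B hFr.cd hB.toSb hW]
  have hin : ∀ χ ∈ Ch B W, ∀ x, SO.cv (fc B W x) χ =
      ((ux B.U W x : ℚ) : ℂ) * μ (fun t : B.C W => χ t) x := by
    intro χ hχ x
    have h3 := m2 (fun t : B.C W => χ t) hχ.2 x
    have h4 : χ 1 ≠ 0 := by
      have h5 := irr_one_ne hχ.2.1
      exact h5
    rw [hcv χ hχ.1, h3, hux]
    show χ 1 * _ / χ 1 = _
    field_simp
  have hlam : ∀ χ ∈ Ch B W, lam B W χ = μ (fun t : B.C W => χ t) := by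
    intro χ hχ
    funext x
    unfold lam
    rw [hin χ hχ x, mul_div_cancel_left₀ _ (hux0 x)]
  have hout : ∀ χ : G → ℂ, (∀ x, x ∉ B.C W → χ x = 0) →
      (fun t : B.C W => χ t) ∈ Irr (B.C W) → χ ∉ Ch B W →
      (fun t : B.C W => χ t) ∉ IrrE M (fun t : B.C W => B.b W t) :=
    fun χ h3 _ h5 h6 => h5 ⟨h3, h6⟩
  have htopsum : ∀ χ : G → ℂ, (∀ x, x ∉ B.C W → χ x = 0) → ∑ᶠ s, bh B ⊤ s * χ s =
      ∑ t : B.C W, EG M (Subgroup.centralizer ((jW B W).range : Set (B.C W)))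
        (fun t : B.C W => B.g t) t * χ t := by
    intro χ hχ
    rw [sum_supp B W hχ]
    simp_rw [bh_top B hB.toSb W]
  refine ⟨⟨?_, ?_, ?_⟩, ?_, ?_, ?_, ?_, ?_, ?_⟩
  · intro χ hχ
    rw [hlam χ hχ]
    exact m1.mapsTo hχ.2
  · intro χ hχ χ' hχ' h
    rw [hlam χ hχ, hlam χ' hχ'] at h
    have h3 := m1.injOn hχ.2 hχ'.2 h
    funext x
    by_cases hx : x ∈ B.C W
    · exact congrFun h3 ⟨x, hx⟩
    · rw [hχ.1 x hx, hχ'.1 x hx]
  · intro f hf
    obtain ⟨ψ, hψ, hψf⟩ := m1.surjOn hf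
    have h3 : (fun t : B.C W => PP.ext0 (B.C W) ψ t) = ψ := by
      funext t
      unfold PP.ext0
      rw [dif_pos t.2]
    have h4 : PP.ext0 (B.C W) ψ ∈ Ch B W := by
      refine ⟨?_, ?_⟩
      · intro x hx
        unfold PP.ext0
        rw [dif_neg hx]
      · rw [h3]
        exact hψ
    refine ⟨PP.ext0 (B.C W) ψ, h4, ?_⟩
    rw [hlam _ h4, h3]
    exact hψf
  · intro χ hχ x
    rw [hin χ hχ x, hlam χ hχ]
  · intro χ h3 h4 h5 x
    rw [hcv χ h3, m3 _ h4 (hout χ h3 h4 h5) x, zero_div]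
  · intro χ hχ y hy
    have h3 := m4 _ hχ.2 ⟨y, hy⟩
    rw [hlam χ hχ, finsum_eq_sum_of_fintype]
    refine h3.trans ?_
    congr 1
    refine Finset.sum_congr rfl fun x _ => ?_
    rw [hux, ← fc_eq B hFr.cd hB.toSb hW x (⟨y, hy⟩⁻¹ : B.C W)]
    rfl
  · intro χ hχ
    obtain ⟨m₀, h3⟩ := m5 _ hχ.2
    refine ⟨m₀, ?_⟩
    rw [htopsum χ hχ.1]
    rcases h3 with h3 | ⟨h3, h4⟩
    · exact Or.inl h3
    · refine Or.inr ⟨?_, h4⟩
      rw [C_top]
      refine le_antisymm ?_ (C_top_le B W)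
      intro y hy
      have h5 : (⟨y, hy⟩ : B.C W) ∈
          Subgroup.centralizer ((jW B W).range : Set (B.C W)) := by
        rw [h3]
        exact Subgroup.mem_top _
      rw [jW_range] at h5
      exact (cent_sub (i_le_C B W) _).1 h5
  · intro χ h3 h4 h5
    obtain ⟨m₀, h6⟩ := m6 _ h4 (hout χ h3 h4 h5)
    exact ⟨m₀, by rw [htopsum χ h3]; exact h6⟩
  · have h3 := bh_W B W (1 : B.C W)
    rw [m7] at h3
    exact h3

/-- NSD -/
theorem nsd (hLbd : LbdStmt) : NsdStmt :=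
  nsd_of Asm.nil_ Asm.inr_ Asm.rsv_ Asm.smg_ hLbd SO.H81.iso

end Pool.Agent.PP.SD.H7
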